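import Pool.Agent.X264.GO.Cyl

/-!
# Quasi-geometric flat bundles on open subsets of affine spaces
-/

set_option autoImplicit false

open Pool.Agent.X264.GO Pool.Agent.X264.GO.Sys

namespace Pool.Agent.Results.MP_e3793a_ag.OpenSubsetsOfAffineSpace

/-- **Quasi-geometric bundles on open subsets of affine spaces.** Let `S` be a system of varieties
(or Deligne-Mumford stacks) `Y` with their fundamental groups and finite etale coverings and with
the products `Y × A^1`, `A` a class of flat bundles (the semisimple quasi-geometric ones) and `C` a
class of flat bundles (the geometric ones) with the closure properties named in the hypotheses, and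
`B n` a set of varieties (the open subsets of `A^n`) such that each `Y` has a finite etale covering
which is a finite etale covering of a variety in some `B n`.
(1) For each infinite set `T` of integers all semisimple bundles in `A` are in `C` if and only if
this is true for the irreducible bundles on the varieties in `B n`, `n ∈ T`.
(2) For each `Y`, all semisimple bundles in `A` on `Y` are in `C` if this is true for the bundles in
`A` on the coverings of `Y` which stay irreducible on all coverings. -/
theorem result (S : Sys ℂ) (hS : S.IsGalois) (A C : S.Cls) (hA : A.IsStable) (hC : C.IsStable)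
    (hC' : C.Sums) (P : S.Cylinders) (B : ℕ → S.Fld → Prop) (hP : P.IsGood A C B)
    (hB : IsCovered S B) :
    (∀ T : Set ℕ, T.Infinite →
      ((∀ Y, AllSemisimple A C Y) ↔ ∀ n ∈ T, ∀ U, B n U → AllIrr A C U)) ∧
    ∀ Y, (∀ Y', Nonempty (S.Ext Y Y') → AllLie A C Y') → AllSemisimple A C Y :=
  ⟨fun T hT => cylinders hS hA hC hC' hP hB T hT, fun Y h => semisimple_of_lie hS hA hC hC' Y h⟩

end Pool.Agent.Results.MP_e3793a_ag.OpenSubsetsOfAffineSpace
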