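import Pool.Agent.X307.LO.Gen

/-!
# Geometricity of quasi-geometric flat bundles on products and fibrations

The objects are the varieties (or Deligne-Mumford stacks) `Y` of the problem, given by abstract
data: the topological fundamental group `π Y` of `Y(ℂ)` with the discrete topology (so that the
regular-singular flat bundles on `Y` are the finite-dimensional complex representations of `π Y`), the
class `QG Y` of the semisimple quasi-geometric ones and the class `Geo Y` of the geometric ones.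

Theorem. (1) If Q1 is true for `Y₁` and for `Y₂`, then it is true for `Y₁ × Y₂`.
(2) Let `f : Y → S` be a smooth morphism with connected fibres which is a topological fibration, and
suppose that Q1 is true for `S`. Let `A` be irreducible quasi-geometric on `Y`. If the restriction of
`A` to a fibre of `f` is isomorphic to the restriction of a semisimple quasi-geometric bundle on `Y`
which is geometric, then `A` is geometric.
(3) If Q1 is true for the members of a class, then it is true for the members of the smallest class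
which contains them, their products, and all `Y` dominated by members.

Proof. Let `N` be the fundamental group of the fibre. The linear maps `A₁ → A` which commute with `N`
form the inverse image of a flat bundle `B` on `S`, which is quasi-geometric, since it is the
direct image of `Hom(A₁, A)`, and `A₁ ⊗ f^*B → A` is surjective.
-/

set_option autoImplicit false

universe u

namespace Pool.Agent.Results.MP_e3793a_ag.ProductVarieties

open Pool.Agent.X307.LO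

/-- The varieties `Y`, their fundamental groups, the semisimple quasi-geometric and the geometric flat
bundles, and the relations: `Y = Y₁ × Y₂`; there is a dominant morphism `Y' → Y`; `β` is induced by a
fibration `Y → S`; `Y` is in the given class. -/
structure Stacks where
  Var : Type u
  π : Var → Type
  [grp : ∀ Y, Group (π Y)]
  [top : ∀ Y, TopologicalSpace (π Y)]
  [disc : ∀ Y, DiscreteTopology (π Y)]
  QG : (Y : Var) → CRep ℂ (π Y) → Prop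
  Geo : (Y : Var) → CRep ℂ (π Y) → Prop
  IsProduct : Var → Var → Var → Prop
  Dominates : Var → Var → Prop
  IsFibration : (Y S : Var) → (π Y →* π S) → Prop
  IsKnown : Var → Prop

attribute [instance] Stacks.grp Stacks.top Stacks.disc

/-- Q1 for `Y`: all semisimple quasi-geometric bundles on `Y` are geometric. -/
def Q1 (𝒱 : Stacks.{u}) (Y : 𝒱.Var) : Prop := ∀ A : CRep ℂ (𝒱.π Y), 𝒱.QG Y A → 𝒱.Geo Y A

/-- The inverse image for `Y' → Y` preserves semisimple quasi-geometric bundles, and bundles are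
geometric if their inverse images are. -/
def Descends (𝒱 : Stacks.{u}) (Y' Y : 𝒱.Var) : Prop :=
  ∃ (r : 𝒱.π Y' →* 𝒱.π Y) (hr : Continuous r), ∀ A : CRep ℂ (𝒱.π Y),
    (𝒱.QG Y A → 𝒱.QG Y' (A.comap r hr)) ∧ (𝒱.Geo Y' (A.comap r hr) → 𝒱.Geo Y A)

/-- The inverse image for `Y → S` preserves geometric bundles, and a bundle on `S` is semisimple
quasi-geometric if its inverse image is. -/
def IsPullback (𝒱 : Stacks.{u}) (Y S : 𝒱.Var) (β : 𝒱.π Y →* 𝒱.π S) (hβ : Continuous β) : Prop :=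
  ∀ B : CRep ℂ (𝒱.π S), (𝒱.Geo S B → 𝒱.Geo Y (B.comap β hβ)) ∧
    (𝒱.QG Y (B.comap β hβ) → 𝒱.QG S B)

/-- `π Y = π Y₁ × π Y₂` for `Y = Y₁ × Y₂`: `s` is induced by `Y₁ = Y₁ × y → Y` for a point `y` of `Y₂`,
and `s ∘ pr₁` is the identity on the kernel of `pr₂`. The inverse images for `s` and `pr₁` preserve
semisimple quasi-geometric bundles, and those for `pr₁` preserve geometric ones. -/
def ProductMaps (𝒱 : Stacks.{u}) (Y Y₁ Y₂ : 𝒱.Var) : Prop :=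
  ∃ (pr₁ : 𝒱.π Y →* 𝒱.π Y₁) (c₁ : Continuous pr₁) (pr₂ : 𝒱.π Y →* 𝒱.π Y₂)
    (q₂ : Topology.IsQuotientMap pr₂) (s : 𝒱.π Y₁ →* 𝒱.π Y) (cs : Continuous s),
      (∀ A, 𝒱.QG Y A → 𝒱.QG Y₁ (A.comap s cs)) ∧ (∀ A, 𝒱.QG Y₁ A → 𝒱.QG Y (A.comap pr₁ c₁)) ∧
        (∀ A, 𝒱.Geo Y₁ A → 𝒱.Geo Y (A.comap pr₁ c₁)) ∧ IsPullback 𝒱 Y Y₂ pr₂ q₂.continuous ∧
          ∀ n, pr₂ n = 1 → s (pr₁ n) = n

/-- The known facts: semisimple quasi-geometric bundles are closed under subbundles, quotients and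
`Hom`; such a bundle is geometric if its irreducible subbundles are; quotients of tensor products;
products, fibrations and dominant morphisms. -/
structure KnownProperties (𝒱 : Stacks.{u}) : Prop where
  subquot : ∀ Y, ClosedSubQuot (𝒱.QG Y)
  hom : ∀ Y (A₁ A C : CRep ℂ (𝒱.π Y)), 𝒱.QG Y A₁ → 𝒱.QG Y A → IsHomSub A₁ A C → 𝒱.QG Y C
  semisimple : ∀ Y (A : CRep ℂ (𝒱.π Y)), 𝒱.QG Y A →
    (∀ B, Irr B → IsSub B A → 𝒱.Geo Y B) → 𝒱.Geo Y A
  tensor : ∀ Y (A B C : CRep ℂ (𝒱.π Y)), IsTensorQuot A B C → 𝒱.Geo Y A → 𝒱.Geo Y B → 𝒱.Geo Y C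
  product : ∀ Y Y₁ Y₂, 𝒱.IsProduct Y Y₁ Y₂ → ProductMaps 𝒱 Y Y₁ Y₂
  fibration : ∀ Y S β, 𝒱.IsFibration Y S β → ∃ q : Topology.IsQuotientMap β,
    IsPullback 𝒱 Y S β q.continuous
  dominates : ∀ Y' Y, 𝒱.Dominates Y' Y → Descends 𝒱 Y' Y

/-- The smallest class which contains the given one, the products of members, and everything dominated
by a member. -/
inductive Generated (𝒱 : Stacks.{u}) : 𝒱.Var → Prop
  | known (Y) : 𝒱.IsKnown Y → Generated 𝒱 Y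
  | product (Y Y₁ Y₂) : 𝒱.IsProduct Y Y₁ Y₂ → Generated 𝒱 Y₁ → Generated 𝒱 Y₂ → Generated 𝒱 Y
  | dominated (Y' Y) : 𝒱.Dominates Y' Y → Generated 𝒱 Y' → Generated 𝒱 Y

/-- `A` and `A₁` have isomorphic restrictions to the kernel of `β`. -/
def SameOnKernel {G Q : Type} [Group G] [TopologicalSpace G] [Group Q] (β : G →* Q)
    (A₁ A : CRep ℂ G) : Prop :=
  ∃ e : A₁.V ≃ₗ[ℂ] A.V, ∀ n, β n = 1 → ∀ v, e (A₁.act n v) = A.act n (e v)

/-- The character `1`. -/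
def oneChar (G : Type) [Group G] [TopologicalSpace G] : CChar ℂ G := ⟨1, continuous_const⟩

theorem isTwist_one {G : Type} [Group G] [TopologicalSpace G] (A : CRep ℂ G) :
    IsTwist A (oneChar G) A := by
  refine ⟨LinearEquiv.refl _ _, fun g v => ?_⟩
  change A.ρ g v = (1 : ℂ) • A.ρ g v
  rw [one_smul]

/-- A quotient of the tensor product in the sense of `IsQuot` is one in the sense of
`IsTensorQuot`. -/
theorem isTensorQuot_of_isQuot {G : Type} [Group G] [TopologicalSpace G] {A B C : CRep ℂ G}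
    (h : IsQuot (A.tensor B) C) : IsTensorQuot A B C := by
  obtain ⟨f, hf, he⟩ := isTensorQuot_twist h (isTwist_one A) (isTwist_one B)
  change A.V →ₗ[ℂ] B.V →ₗ[ℂ] C.V at f
  have h1 : ∀ g v w, f (A.act g v) (B.act g w) = C.act g (f v w) := by
    intro g v w
    have h2 : f (A.act g v) (B.act g w) = ((1 : ℂ) * 1) • C.act g (f v w) := he g v w
    rw [h2, mul_one, one_smul]
  exact ⟨f, hf, h1⟩

section

variable {𝒱 : Stacks.{u}} (h𝒱 : KnownProperties 𝒱)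

include h𝒱

/-- The main step: `A` is geometric if it is irreducible quasi-geometric and has the same restriction
to the kernel of `β` as a bundle `A₁` which comes from a bundle of a class with geometric
irreducible members. -/
theorem geo_aux (Y S Y₁ : 𝒱.Var) (α : 𝒱.π Y →* 𝒱.π Y₁) (hα : Continuous α)
    (β : 𝒱.π Y →* 𝒱.π S) (q : Topology.IsQuotientMap β) (hpull : IsPullback 𝒱 Y S β q.continuous)
    (hS : Q1 𝒱 S) (A : CRep ℂ (𝒱.π Y)) (hA : Irr A) (hAQ : 𝒱.QG Y A) (P : CRep ℂ (𝒱.π Y₁) → Prop)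
    (hP : ClosedSubQuot P) (hPgeo : ∀ C, P C → Irr C → 𝒱.Geo Y (C.comap α hα))
    (A₁ : CRep ℂ (𝒱.π Y₁)) (hA₁ : P A₁) (hA₁Q : 𝒱.QG Y (A₁.comap α hα))
    (h : SameOnKernel β (A₁.comap α hα) A) : 𝒱.Geo Y A := by
  obtain ⟨e, he⟩ := h
  obtain ⟨B, hBhom, hB⟩ := exists_quot_hom (A₁.comap α hα) A β q e he
  have hBQ : 𝒱.QG S B := (hpull B).2 (h𝒱.hom Y _ _ _ hA₁Q hAQ hBhom)
  obtain ⟨A', hPA', hA', hq⟩ := exists_irr_of α hα _ A hA P hP A₁ hA₁ hB
  obtain ⟨B', hPB', hB', hq'⟩ := exists_irr_of β q.continuous _ A hA (𝒱.QG S) (h𝒱.subquot S) B hBQ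
    (isQuot_comm hq)
  exact h𝒱.tensor Y _ _ _ (isTensorQuot_of_isQuot hq') ((hpull B').1 (hS B' hPB'))
    (hPgeo A' hPA' hA')

theorem q1_of_irr (Y : 𝒱.Var) (h : ∀ A : CRep ℂ (𝒱.π Y), Irr A → 𝒱.QG Y A → 𝒱.Geo Y A) :
    Q1 𝒱 Y :=
  fun A hA => h𝒱.semisimple Y A hA fun B hB hBA => h B hB ((h𝒱.subquot Y).1 B A hBA hA)

theorem q1_product (Y Y₁ Y₂ : 𝒱.Var) (hY : 𝒱.IsProduct Y Y₁ Y₂) (h₁ : Q1 𝒱 Y₁) (h₂ : Q1 𝒱 Y₂) :
    Q1 𝒱 Y := by
  refine q1_of_irr h𝒱 Y fun A hA hAQ => ?_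
  obtain ⟨pr₁, c₁, pr₂, q₂, s, cs, hs, hp, hg, hpull, hker⟩ := h𝒱.product Y Y₁ Y₂ hY
  refine geo_aux h𝒱 Y Y₂ Y₁ pr₁ c₁ pr₂ q₂ hpull h₂ A hA hAQ (𝒱.QG Y₁) (h𝒱.subquot Y₁)
    (fun C hC _ => hg C (h₁ C hC)) (A.comap s cs) (hs A hAQ) (hp _ (hs A hAQ))
    ⟨LinearEquiv.refl _ _, ?_⟩
  intro n hn v
  change A.ρ (s (pr₁ n)) v = A.ρ n v
  rw [hker n hn]

theorem geo_of_sameOnKernel (Y S : 𝒱.Var) (β : 𝒱.π Y →* 𝒱.π S) (hβ : 𝒱.IsFibration Y S β)
    (hS : Q1 𝒱 S) (A A₁ : CRep ℂ (𝒱.π Y)) (hA : Irr A) (hAQ : 𝒱.QG Y A) (hA₁Q : 𝒱.QG Y A₁)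
    (hA₁ : 𝒱.Geo Y A₁) (h : SameOnKernel β A₁ A) : 𝒱.Geo Y A := by
  obtain ⟨q, hpull⟩ := h𝒱.fibration Y S β hβ
  obtain ⟨e, he⟩ := h
  obtain ⟨B, hBhom, hB⟩ := exists_quot_hom A₁ A β q e he
  have hBQ : 𝒱.QG S B := (hpull B).2 (h𝒱.hom Y _ _ _ hA₁Q hAQ hBhom)
  obtain ⟨B', hPB', -, hq'⟩ := exists_irr_of β q.continuous _ A hA (𝒱.QG S) (h𝒱.subquot S) B hBQ
    (isQuot_comm hB)
  exact h𝒱.tensor Y _ _ _ (isTensorQuot_of_isQuot hq') ((hpull B').1 (hS B' hPB')) hA₁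

end

/-- (1) products; (2) fibrations; (3) the class generated by a class. -/
theorem result (𝒱 : Stacks.{u}) (h𝒱 : KnownProperties 𝒱) :
    (∀ Y Y₁ Y₂, 𝒱.IsProduct Y Y₁ Y₂ → Q1 𝒱 Y₁ → Q1 𝒱 Y₂ → Q1 𝒱 Y) ∧
    (∀ (Y S : 𝒱.Var) (β : 𝒱.π Y →* 𝒱.π S), 𝒱.IsFibration Y S β → Q1 𝒱 S →
      ∀ A A₁ : CRep ℂ (𝒱.π Y), Irr A → 𝒱.QG Y A → 𝒱.QG Y A₁ → 𝒱.Geo Y A₁ →
        SameOnKernel β A₁ A → 𝒱.Geo Y A) ∧
    ((∀ Y, 𝒱.IsKnown Y → Q1 𝒱 Y) → ∀ Y, Generated 𝒱 Y → Q1 𝒱 Y) := by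
  refine ⟨q1_product h𝒱, fun Y S β hβ hS A A₁ hA hAQ hA₁Q hA₁ h =>
    geo_of_sameOnKernel h𝒱 Y S β hβ hS A A₁ hA hAQ hA₁Q hA₁ h, fun hk Y hY => ?_⟩
  induction hY with
  | known Y h => exact hk Y h
  | product Y Y₁ Y₂ h _ _ h₁ h₂ => exact q1_product h𝒱 Y Y₁ Y₂ h h₁ h₂
  | dominated Y' Y h _ hY' =>
    obtain ⟨r, hr, h1⟩ := h𝒱.dominates Y' Y h
    exact fun A hA => (h1 A).2 (hY' _ ((h1 A).1 hA))

end Pool.Agent.Results.MP_e3793a_ag.ProductVarieties
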