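import Pool.Agent.X289.EI.Crit

/-!
# A spectral criterion for a flat bundle to be geometric

Let `Y` be as in the problem, `G = π_1 (Y_ℂ^an)`, `V` a semisimple regular-singular flat bundle and `M` a geometric flat
bundle on `Y`. We show: if each eigenvalue of each monodromy operator `V(γ)` is an eigenvalue of `M(γ)`, without any
condition on multiplicities, then `V` is in the tensor category generated by `M`, and so it is geometric. It is
enough to have this for `γ` in a subset of the fundamental group of a finite covering of `Y` which is dense for the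
Zariski topology. Conversely a geometric bundle is a subquotient of a Gauss-Manin bundle `M` and satisfies the condition
for this `M`. So Q1 says: for each semisimple quasi-geometric `V` there is a geometric `M` with
`Spec V(γ) ⊆ Spec M(γ)` for all `γ` in a subgroup of finite index.

For `V` Lie-irreducible (irreducible on all subgroups of finite index) of rank `n`, with determinant of finite order, we
show that it is enough to have this for the `k`-th powers of the eigenvalues of `V(γ)`, with `k` prime to `n`. (The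
determinant of a quasi-geometric flat bundle is of finite order.)

Below, `ρ` is the monodromy representation of `V` and `θ` that of `M`. A bundle `M` on a finite covering can be
replaced by its direct image.
-/

set_option autoImplicit false

namespace Pool.Agent.Results.MP_e3793a_ag.SpectralCriterion

open Polynomial
open Pool.Agent.X320.DS.St (Rep Poly mat Stable Semisimple Irreducible value IsSubquotient)

section

variable {G F : Type} [Group G] [Field F] {n m : ℕ}

/-- for all eigenvalues `x` of `ρ (g)` the power `x ^ k` is an eigenvalue of `θ (g)` (no condition on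
multiplicities) -/
def PowersAmong (k : ℕ) (ρ : Rep G F n) (θ : Rep G F m) (g : G) : Prop :=
  ∀ x, (mat ρ g).charpoly.IsRoot x → (mat θ g).charpoly.IsRoot (x ^ k)

/-- the value at `g` of a polynomial in the entries of `ρ (g)`, `ρ (g)⁻¹`, `θ (g)`, `θ (g)⁻¹` -/
noncomputable def pairValue (ρ : Rep G F n) (θ : Rep G F m)
    (P : MvPolynomial (((Fin n × Fin n) ⊕ (Fin n × Fin n)) ⊕ ((Fin m × Fin m) ⊕ (Fin m × Fin m))) F) (g : G) : F :=
  MvPolynomial.eval (Sum.elim
    (Sum.elim (fun s => mat ρ g s.1 s.2) (fun s => mat ρ g⁻¹ s.1 s.2))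
    (Sum.elim (fun s => mat θ g s.1 s.2) (fun s => mat θ g⁻¹ s.1 s.2))) P

/-- `S` is Zariski dense in `N`: a polynomial in the entries of `ρ (g)^{±1}`, `θ (g)^{±1}` which vanishes for `g` in `S`
vanishes for `g` in `N`. (For instance `S = N`.) -/
def ZariskiDenseIn (ρ : Rep G F n) (θ : Rep G F m) (S : Set G) (N : Subgroup G) : Prop :=
  ∀ P, (∀ g ∈ S, pairValue ρ θ P g = 0) → ∀ g ∈ N, pairValue ρ θ P g = 0

/-- the entries of `ρ (g)`, `g` in `N`, are polynomials in the entries of `θ (g)` and `θ (g)⁻¹` -/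
def PolynomialOn (N : Subgroup G) (ρ : Rep G F n) (θ : Rep G F m) : Prop :=
  ∃ Q : Matrix (Fin n) (Fin n) (Poly F m), ∀ g ∈ N, mat ρ g = Q.map fun P => value θ P g

/-- `ρ` is a subquotient of `F[G/N'] ⊗ W^{⊗ a} ⊗ (W^*)^{⊗ b}` for some `a`, `b` and some normal subgroup `N'` of finite
index contained in `N`, where `W` is the space of `θ` -/
def InTensorsOver (N : Subgroup G) (ρ : Rep G F n) (θ : Rep G F m) : Prop :=
  ∃ N' : Subgroup G, N' ≤ N ∧ N'.Normal ∧ N'.FiniteIndex ∧ ∃ a b, IsSubquotient ρ θ N' a b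

/-- `ρ` is irreducible on all subgroups `S` of finite index: the matrices `ρ (s)`, `s ∈ S`, span the space of all
matrices -/
def LieIrreducible (ρ : Rep G F n) : Prop :=
  0 < n ∧ ∀ S : Subgroup G, S.FiniteIndex → Submodule.span F (mat ρ '' (S : Set G)) = ⊤

/-- the determinant of `ρ` has finite order -/
def FiniteDet (ρ : Rep G F n) : Prop := ∃ M, 0 < M ∧ ∀ g, (mat ρ g).det ^ M = 1

/-- `ρ` is a subquotient of `θ` on `N`: there is a subspace `S` of the space of `θ`, stable under `N`, with an
equivariant surjection to the space of `ρ` -/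
def SubquotientOn (N : Subgroup G) (ρ : Rep G F n) (θ : Rep G F m) : Prop :=
  ∃ (S : Submodule F (Fin m → F)) (π : S →ₗ[F] (Fin n → F)), Function.Surjective π ∧
    ∀ g ∈ N, ∀ (u : S), ∃ h : (mat θ g).mulVec u.1 ∈ S, π ⟨(mat θ g).mulVec u.1, h⟩ = (mat ρ g).mulVec (π u)

end

section

open Pool.Agent.X289.EI (amongPow_of_dense on_subgroup on_subgroup_pow exists_det)
open Pool.Agent.X320.DS (algT gens tannaka)

variable {G F : Type} [Group G] [Field F] {n m : ℕ}

theorem mem_pair (ρ : Rep G F n) (θ : Rep G F m) {f : G → F} (hf : f ∈ algT θ ⊔ algT ρ) :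
    ∃ P, f = pairValue ρ θ P := by
  have hf' : f ∈ Algebra.adjoin F (Set.range (Sum.elim (gens ρ) (gens θ))) := by
    rw [Set.Sum.elim_range, Algebra.adjoin_union, sup_comm]
    exact hf
  rw [Algebra.adjoin_range_eq_range_aeval] at hf'
  obtain ⟨P, rfl⟩ := hf'
  refine ⟨P, ?_⟩
  funext g
  have h2 : (Pi.evalAlgHom F (fun _ : G => F) g) (MvPolynomial.aeval (Sum.elim (gens ρ) (gens θ)) P) =
      MvPolynomial.aeval (fun s => Sum.elim (gens ρ) (gens θ) s g) P := by
    rw [← AlgHom.comp_apply, MvPolynomial.comp_aeval]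
    rfl
  refine h2.trans ?_
  rw [MvPolynomial.aeval_eq_eval]
  unfold pairValue
  congr 1
  congr 1
  funext s
  rcases s with (s | s) | (s | s) <;> rfl

theorem inTensors_of {ρ : Rep G F n} {θ : Rep G F m} (hn : 0 < n) (hρ : ∀ W, Stable ρ W → W = ⊥ ∨ W = ⊤)
    (N : Subgroup G) [hN : N.FiniteIndex]
    (h : ∀ s t, ∃ φ ∈ algT θ, ∀ g ∈ N, mat ρ g s t = φ g) : ∃ a b, IsSubquotient ρ θ N a b := by
  choose φ h1 h2 using h
  haveI : Finite (G ⧸ N) := Subgroup.finite_quotient_of_finiteIndex
  obtain ⟨a, b, S, π, hπ, hS⟩ := tannaka hn ρ hρ θ N φ h1 (fun g hg s t => h2 s t g hg)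
  exact ⟨a, b, Pool.Agent.X320.DS.St.isSubquotient_iff _ _ _ _ _ ⟨S, π, hπ, hS⟩⟩

theorem LieIrreducible.irr {ρ : Rep G F n} (h : LieIrreducible ρ) : ∀ W, Stable ρ W → W = ⊥ ∨ W = ⊤ := by
  intro W hW
  have h1 : Submodule.span F (mat ρ '' ((⊤ : Subgroup G) : Set G)) = ⊤ := h.2 ⊤ inferInstance
  by_cases hb : W = ⊥
  · exact Or.inl hb
  · right
    have hall : ∀ M : Matrix (Fin n) (Fin n) F, ∀ w ∈ W, M.mulVec w ∈ W := by
      intro M
      have hM : M ∈ Submodule.span F (mat ρ '' ((⊤ : Subgroup G) : Set G)) := by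
        rw [h1]; trivial
      refine Submodule.span_induction (p := fun M _ => ∀ w ∈ W, M.mulVec w ∈ W) ?_ ?_ ?_ ?_ hM
      · rintro _ ⟨g, _, rfl⟩ w hw
        exact hW g w hw
      · intro w _
        rw [Matrix.zero_mulVec]
        exact W.zero_mem
      · intro M M' _ _ h h' w hw
        rw [Matrix.add_mulVec]
        exact W.add_mem (h w hw) (h' w hw)
      · intro c M _ h w hw
        rw [Matrix.smul_mulVec]
        exact W.smul_mem c (h w hw)
    obtain ⟨w, hw, hw0⟩ := (Submodule.ne_bot_iff _).1 hb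
    obtain ⟨j, hj⟩ : ∃ j, w j ≠ 0 := by
      by_contra hcon
      push Not at hcon
      exact hw0 (funext hcon)
    rw [eq_top_iff]
    intro u _
    have h2 := hall (Matrix.of fun i l => if l = j then u i / w j else 0) w hw
    have e : (Matrix.of fun i l => if l = j then u i / w j else 0).mulVec w = u := by
      funext i
      show ∑ l, (if l = j then u i / w j else 0) * w l = u i
      rw [Finset.sum_eq_single j]
      · rw [if_pos rfl, div_mul_cancel₀ _ hj]
      · intro l _ hl
        rw [if_neg hl, zero_mul]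
      · simp
    rwa [e] at h2

theorem polynomialOn_of {ρ : Rep G F n} {θ : Rep G F m} (N : Subgroup G)
    (h : ∀ s t, ∃ φ ∈ algT θ, ∀ g ∈ N, mat ρ g s t = φ g) : PolynomialOn N ρ θ := by
  choose φ h1 h2 using h
  choose Q hQ using fun s t => Pool.Agent.X320.DS.St.exists_value θ (h1 s t)
  refine ⟨Matrix.of Q, fun g hg => ?_⟩
  ext s t
  rw [h2 s t g hg, hQ s t]
  rfl

theorem powersAmong_of_subquotient (N : Subgroup G) {ρ : Rep G F n} {θ : Rep G F m} (h : SubquotientOn N ρ θ)
    (g : G) (hg : g ∈ N) : PowersAmong 1 ρ θ g := by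
  have h1 : Pool.Agent.X289.EI.SubquotientOf (ρ.comp N.subtype) (θ.comp N.subtype) := by
    obtain ⟨S, π, hπ, hS⟩ := h
    exact ⟨S, π, hπ, fun x u => hS x.1 x.2 u⟩
  intro x hx
  rw [pow_one]
  exact Pool.Agent.X289.EI.among_of_subquotient h1 ⟨g, hg⟩ x hx

end

/-- **Spectral criterion.** Let `G` be a group, `F` an algebraically closed field of characteristic zero,
`ρ : G → GL_n(F)` and `θ : G → GL_m(F)` representations, `N` a normal subgroup of finite index of `G` and `S` a subset of
`G` which is Zariski dense in `N` (for instance `S = N`).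

1. Suppose that for all `g` in `S` the eigenvalues of `ρ (g)` are among the eigenvalues of `θ (g)`. If `ρ` is semisimple,
its entries on `N` are polynomials in the entries of `θ` and `θ⁻¹`. If `ρ` is irreducible, it is a subquotient of
`F[G/N'] ⊗ W^{⊗ a} ⊗ (W^*)^{⊗ b}` for some `a`, `b` and `N'` of finite index, `W` the space of `θ`.

2. Suppose that `ρ` is irreducible on all subgroups of finite index, that its determinant has finite order and that
for some `k ≥ 1` prime to `n` and all `g` in `S` the `k`-th powers of the eigenvalues of `ρ (g)` are eigenvalues of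
`θ (g)`. Then `ρ` is such a subquotient, too.

3. Conversely, if `ρ` is a subquotient of `θ` on `N`, the eigenvalues of `ρ (g)` are among those of `θ (g)` for all
`g` in `N`. -/
theorem result (G F : Type) [Group G] [Field F] [IsAlgClosed F] [CharZero F] (n m : ℕ) (ρ : Rep G F n)
    (θ : Rep G F m) (N : Subgroup G) (hN : N.Normal) (hfi : N.FiniteIndex) (S : Set G)
    (hS : ZariskiDenseIn ρ θ S N) :
    ((∀ g ∈ S, PowersAmong 1 ρ θ g) →
      (Semisimple ρ → PolynomialOn N ρ θ) ∧ (Irreducible ρ → InTensorsOver N ρ θ)) ∧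
    (∀ k : ℕ, 0 < k → Nat.Coprime k n → LieIrreducible ρ → FiniteDet ρ → (∀ g ∈ S, PowersAmong k ρ θ g) →
      InTensorsOver N ρ θ) ∧
    (SubquotientOn N ρ θ → ∀ g ∈ N, PowersAmong 1 ρ θ g) := by
  have hd : ∀ f ∈ Pool.Agent.X320.DS.algT θ ⊔ Pool.Agent.X320.DS.algT ρ, (∀ g ∈ S, f g = 0) →
      ∀ g ∈ (N : Set G), f g = 0 := by
    intro f hf h0
    obtain ⟨P, rfl⟩ := mem_pair ρ θ hf
    exact hS P h0
  refine ⟨fun h => ?_, fun k hk hkn hirr hdet h => ?_, fun h g hg => powersAmong_of_subquotient N h g hg⟩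
  · have h1 : ∀ g ∈ N, Pool.Agent.X289.EI.AmongPow 1 ρ θ g :=
      Pool.Agent.X289.EI.amongPow_of_dense 1 S (N : Set G) hd h
    refine ⟨fun hss => polynomialOn_of N fun s t => Pool.Agent.X289.EI.on_subgroup N hss h1 s t, fun hi => ?_⟩
    exact ⟨N, le_rfl, hN, hfi, inTensors_of hi.1 hi.2 N fun s t =>
      Pool.Agent.X289.EI.on_subgroup N hi.semisimple h1 s t⟩
  · have h1 : ∀ g ∈ N, Pool.Agent.X289.EI.AmongPow k ρ θ g :=
      Pool.Agent.X289.EI.amongPow_of_dense k S (N : Set G) hd h
    obtain ⟨M, hM, hM2⟩ := hdet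
    obtain ⟨N', h2, h3, h4, h5⟩ := Pool.Agent.X289.EI.exists_det hM hM2 N
    exact ⟨N', h2, h3, h4, inTensors_of hirr.1 hirr.irr N' fun s t =>
      Pool.Agent.X289.EI.on_subgroup_pow N' hk hkn hirr h5 (fun g hg => h1 g (h2 hg)) s t⟩

end Pool.Agent.Results.MP_e3793a_ag.SpectralCriterion
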