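import Pool.Agent.H313.TE.Quot

/-!
# Tensor decomposition of local systems relative to a fibration

Let `Y → S` be a dominant morphism of smooth varieties with connected general fibre; after
shrinking `S` and `Y` it is a topological fibration. Let `G` be the fundamental group of `Y`, a
finitely generated group, and `N` the image in it of the fundamental group of the fibre, a normal
subgroup with `G / N` the fundamental group of `S`.  The monodromy representation of a
quasi-geometric flat bundle is (conjugate to) a representation `ρ` of `G` over the field of algebraic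
numbers, its restriction to a subgroup `U` of finite index is the pull-back of the bundle to a finite
étale covering `Y'` of `Y`, and the representations of `U` that are trivial on `N ∩ U` are those
which come from the corresponding covering `S'` of `S`.

The theorem: let `ρ` be irreducible on all subgroups of finite index, with determinant of finite
order. On a suitable subgroup of finite index `ρ` is a tensor product `B ⊗ A`, where `B` comes from
the base and `A` is irreducible on the fibre and stays so on all finite coverings.  The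
decomposition is unique up to twists by characters of order dividing the rank.  So if the flat
bundle of `ρ` is defined over the algebraic numbers, then the (finitely many) conjugates of the flat
bundles of `A` and `B` are of this kind, hence these two are defined over the algebraic numbers.

If on some covering the restriction of `ρ` to the fibre has an eigenvector, or if the image
of `N` is virtually solvable, then `ρ` comes from the base on some covering.  If the fundamental
group of the base is virtually solvable, then `ρ` stays irreducible on the fibres of all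
coverings.  If the rank is a prime number then either `ρ` stays irreducible on the fibres of all
coverings, or it comes from the base on some covering.
-/

set_option autoImplicit false

open Matrix Kronecker

namespace Pool.Agent.Results.MP_e3793a_ag.TensorDecompositionOverBase

section defs

variable {G : Type} [Group G] {E : Type} [Field E] {n : ℕ}

/-- the matrix of `ρ g` -/
abbrev matrixOf (ρ : G →* GL (Fin n) E) (g : G) : Matrix (Fin n) (Fin n) E :=
  (ρ g : Matrix (Fin n) (Fin n) E)

/-- The restriction of `ρ` to the subgroup `M` has no stable subspaces except zero and everything. -/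
def IrreducibleOn (ρ : G →* GL (Fin n) E) (M : Subgroup G) : Prop :=
  ∀ W : Submodule E (Fin n → E), (∀ h ∈ M, ∀ w ∈ W, matrixOf ρ h *ᵥ w ∈ W) → W = ⊥ ∨ W = ⊤

/-- The restriction of `ρ` to `M ∩ U` is irreducible for all subgroups `U` of finite index. -/
def LieIrreducibleOn (ρ : G →* GL (Fin n) E) (M : Subgroup G) : Prop :=
  ∀ U : Subgroup G, U.FiniteIndex → IrreducibleOn ρ (M ⊓ U)

/-- `ρ` is trivial on `N ∩ U` for some subgroup `U` of finite index. -/
def ComesFromBase (ρ : G →* GL (Fin n) E) (N : Subgroup G) : Prop :=
  ∃ U : Subgroup G, U.FiniteIndex ∧ ∀ h ∈ N ⊓ U, ρ h = 1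

/-- The determinants of the `ρ g` are `M`-th roots of unity for some `M > 0`. -/
def HasFiniteDet (ρ : G →* GL (Fin n) E) : Prop :=
  ∃ M : ℕ, 0 < M ∧ ∀ g, (matrixOf ρ g).det ^ M = 1

/-- The restriction of `ρ` to `U` is isomorphic to the tensor product `B ⊗ A`. -/
def IsTensorProduct {m a : ℕ} (ρ : G →* GL (Fin n) E) (U : Subgroup G) (B : U →* GL (Fin m) E)
    (A : U →* GL (Fin a) E) : Prop :=
  ∃ (P : Matrix (Fin n) (Fin m × Fin a) E) (Q : Matrix (Fin m × Fin a) (Fin n) E),
    P * Q = 1 ∧ Q * P = 1 ∧ ∀ u : U, matrixOf ρ u = P * (matrixOf B u ⊗ₖ matrixOf A u) * Q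

/-- `ρ` is on `U` the tensor product of `B`, which is trivial on `N ∩ U`, and `A`, which is
irreducible on `N ∩ U`, with determinants of finite order. -/
def IsDecomposition {m a : ℕ} (ρ : G →* GL (Fin n) E) (N U : Subgroup G) (B : U →* GL (Fin m) E)
    (A : U →* GL (Fin a) E) : Prop :=
  m * a = n ∧ IsTensorProduct ρ U B A ∧ (∀ u : U, (u : G) ∈ N → B u = 1) ∧
    IrreducibleOn A (N.subgroupOf U) ∧
    (∀ u : U, (matrixOf A u).det ^ m = 1 ∧ (matrixOf B u).det ^ a = 1)

/-- On some subgroup `U` of finite index there is a decomposition with representations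
which are trivial on the kernel of `ρ`, `B` is irreducible on all subgroups
of finite index, `A` is irreducible on the intersections of `N` and the subgroups of finite index
of `U`. -/
def HasDecomposition (ρ : G →* GL (Fin n) E) (N : Subgroup G) : Prop :=
  ∃ (U : Subgroup G) (m a : ℕ) (A : U →* GL (Fin a) E) (B : U →* GL (Fin m) E),
    U.FiniteIndex ∧ IsDecomposition ρ N U B A ∧
    LieIrreducibleOn A (N.subgroupOf U) ∧ LieIrreducibleOn B ⊤ ∧
    (∀ u : U, ρ u = 1 → A u = 1 ∧ B u = 1)

/-- `A'` is isomorphic to `A` twisted by `χ`. -/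
def IsTwist {k l : ℕ} (χ : G → E) (A : G →* GL (Fin k) E) (A' : G →* GL (Fin l) E) : Prop :=
  ∃ (T : Matrix (Fin l) (Fin k) E) (T' : Matrix (Fin k) (Fin l) E), T * T' = 1 ∧ T' * T = 1 ∧
    ∀ g, matrixOf A' g = χ g • (T * matrixOf A g * T')

/-- Two decompositions on the same subgroup differ by a twist with a character of order dividing
`n` which is trivial on `N`. -/
def UniqueUpToTwist (ρ : G →* GL (Fin n) E) (N : Subgroup G) : Prop :=
  ∀ (U : Subgroup G) (m a m' a' : ℕ) (B : U →* GL (Fin m) E) (A : U →* GL (Fin a) E)
    (B' : U →* GL (Fin m') E) (A' : U →* GL (Fin a') E),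
    IsDecomposition ρ N U B A → IsDecomposition ρ N U B' A' →
      ∃ χ : U →* E, (∀ u, χ u ^ n = 1) ∧ (∀ u : U, (u : G) ∈ N → χ u = 1) ∧ IsTwist χ A A' ∧
        IsTwist χ B' B

/-- For some subgroup `U` of finite index, the restriction of `ρ` to `N ∩ U` has an eigenvector. -/
def HasLine (ρ : G →* GL (Fin n) E) (N : Subgroup G) : Prop :=
  ∃ v : Fin n → E, v ≠ 0 ∧ ∃ U : Subgroup G, U.FiniteIndex ∧
    ∀ h ∈ N ⊓ U, ∃ c : E, matrixOf ρ h *ᵥ v = c • v

/-- The image of `N` under `ρ` has a solvable subgroup of finite index: the intersection with a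
solvable subgroup `S`. -/
def VirtuallySolvableOn (ρ : G →* GL (Fin n) E) (N : Subgroup G) : Prop :=
  ∃ S : Subgroup (GL (Fin n) E), Group.IsSolvable S ∧ S.relIndex (N.map ρ) ≠ 0

/-- `G / N` has a solvable subgroup of finite index. -/
def VirtuallySolvableQuotient (N : Subgroup G) [N.Normal] : Prop :=
  ∃ S : Subgroup (G ⧸ N), Group.IsSolvable S ∧ S.FiniteIndex

end defs

/-- The theorem. -/
theorem result (G : Type) [Group G] [Group.FG G] (N : Subgroup G) [hN : N.Normal]
    (n : ℕ) (hn : 0 < n) (ρ : G →* GL (Fin n) (AlgebraicClosure ℚ))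
    (hlie : LieIrreducibleOn ρ ⊤) (hdet : HasFiniteDet ρ) :
    HasDecomposition ρ N ∧ UniqueUpToTwist ρ N ∧
      (HasLine ρ N ∨ VirtuallySolvableOn ρ N → ComesFromBase ρ N) ∧
      (VirtuallySolvableQuotient N → LieIrreducibleOn ρ N) ∧
      (n.Prime → LieIrreducibleOn ρ N ∨ ComesFromBase ρ N) := by
  obtain ⟨h1, h2, h3⟩ := Pool.Agent.H313.TE.full N hN hn ρ hlie hdet
  refine ⟨?_, ?_, ?_, ?_, h3⟩
  · obtain ⟨U, m, a, A, B, hU, hma, hT, hBN, hA, hB, hker, hd⟩ := h1
    refine ⟨U, m, a, A, B, hU, ⟨hma, hT, hBN, ?_, hd⟩, hA, hB, hker⟩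
    intro W hW
    exact hA ⊤ inferInstance W fun h hh w hw => hW h hh.1 w hw
  · intro U m a m' a' B A B' A' h h'
    exact Pool.Agent.H313.TE.unique hn h h'
  · rintro (h | h)
    · exact h2 h
    · exact Pool.Agent.H313.TE.full2 N hN hn ρ hlie hdet h
  · intro h
    exact Pool.Agent.H313.TE.quot_irr N hN hn ρ hlie hdet h

end Pool.Agent.Results.MP_e3793a_ag.TensorDecompositionOverBase
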